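import Mathlib
import Pool.Agent.K7.H62.PA.Slp

/-!
# Polynomials computed with few additions at the `p`-adic logarithms of almost all tuples of integers

For every `g, m, L` there is `c` such that for all `x ≥ 16`, all primes `p`, and arbitrary elements
`t_1, ..., t_g` of the algebraic closure of `ℚ_p`, for all but at most
`c (log log x) ^ c / log x · x ^ m` of the `m`-tuples `n` of integers in `[1, x]` the following holds:
no nonzero polynomial in `m` variables which can be computed from the variables, the numbers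
`t_1, ..., t_g` and algebraic numbers with at most `L` additions and arbitrarily many multiplications
vanishes at the point `(log_p n_1, ..., log_p n_m)`. There is no bound for the degrees.
-/

set_option autoImplicit false

namespace Pool.Agent.Results.MP_c50dba_nt.FewAdditions

open Pool.Agent.R351

/-- `Lg` is the Iwasawa `p`-adic logarithm on the algebraic closure of `ℚ_p`. -/
def IsIwasawaLog (p : ℕ) [Fact p.Prime] (Lg : PadicAlgCl p → PadicAlgCl p) : Prop :=
  (∀ x y : PadicAlgCl p, x ≠ 0 → y ≠ 0 → Lg (x * y) = Lg x + Lg y) ∧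
  Lg ((p : ℕ) : PadicAlgCl p) = 0 ∧
  ∀ z : PadicAlgCl p, ‖z‖ < 1 →
    HasSum (fun n : ℕ => (-1 : PadicAlgCl p) ^ n * z ^ (n + 1) / ((n : PadicAlgCl p) + 1))
      (Lg (1 + z))

/-- The polynomials `G 0, …, G (L - 1)` are computed with one addition each: `G l` is the sum of two
products of powers of the variables, of the numbers `t o`, of the earlier polynomials
`G 0, …, G (l - 1)`, and of an algebraic number. -/
def Computed {p : ℕ} [Fact p.Prime] {g m : ℕ} (t : Fin g → PadicAlgCl p) (L : ℕ)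
    (G : ℕ → MvPolynomial (Fin m) (PadicAlgCl p)) : Prop :=
  ∃ (c : ℕ → Bool → algebraicClosure ℚ (PadicAlgCl p)) (u : ℕ → Bool → Fin g → ℕ)
    (a : ℕ → Bool → Fin m → ℕ) (h : ℕ → Bool → ℕ → ℕ), ∀ l < L, G l = ∑ b : Bool,
      MvPolynomial.C ((c l b : PadicAlgCl p) * ∏ o, t o ^ u l b o) *
        (∏ i, MvPolynomial.X i ^ a l b i) * ∏ l' ∈ Finset.range l, G l' ^ h l b l'

theorem Computed.cmp {p : ℕ} [Fact p.Prime] {g m : ℕ} {t : Fin g → PadicAlgCl p} {L : ℕ}
    {G : ℕ → MvPolynomial (Fin m) (PadicAlgCl p)}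
    (h : Computed t L G) : Cmp (algebraicClosure ℚ (PadicAlgCl p)) (btm m t) L G := by
  obtain ⟨c, u, a, e, h⟩ := h
  refine ⟨c, fun l b j => Sum.elim (u l b) (a l b) j, e, fun l hl => ?_⟩
  rw [h l hl]
  refine Finset.sum_congr rfl fun b _ => ?_
  rw [Fintype.prod_sum_type, Algebra.smul_def, IsScalarTower.algebraMap_apply
    (algebraicClosure ℚ (PadicAlgCl p)) (PadicAlgCl p) (MvPolynomial (Fin m) (PadicAlgCl p))]
  unfold btm
  simp only [Sum.elim_inl, Sum.elim_inr, map_mul, map_prod, map_pow, MvPolynomial.algebraMap_eq]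
  have h1 : algebraMap (algebraicClosure ℚ (PadicAlgCl p)) (PadicAlgCl p) (c l b) =
      (c l b : PadicAlgCl p) := rfl
  rw [h1]
  ring

/-- **Main result.** -/
theorem result (g m L : ℕ) : ∃ c : ℕ, ∀ x : ℕ, 16 ≤ x → ∀ (p : ℕ) [Fact p.Prime]
    (Lg : PadicAlgCl p → PadicAlgCl p), IsIwasawaLog p Lg → ∀ t : Fin g → PadicAlgCl p,
    ∃ E : Finset (Fin m → ℕ),
      (E.card : ℝ) ≤ c * Real.log (Real.log x) ^ c / Real.log x * x ^ m ∧
      ∀ n : Fin m → ℕ, (∀ i, 0 < n i ∧ n i ≤ x) → n ∉ E →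
      ∀ G : ℕ → MvPolynomial (Fin m) (PadicAlgCl p), Computed t L G →
      ∀ j < L, G j ≠ 0 → MvPolynomial.eval (fun i => Lg (n i : PadicAlgCl p)) (G j) ≠ 0 := by
  classical
  obtain ⟨c, hc⟩ := Pool.Agent.K7.H62.PA.rate_slp L m g
  refine ⟨c, fun x hx p _ Lg hL t => ?_⟩
  have hL' : Pool.Agent.W245.PB.IsIwasawaLog p Lg := ⟨hL.1, hL.2.1, hL.2.2⟩
  refine ⟨(Fintype.piFinset fun _ : Fin m => Finset.Ioc 0 x).filter (fun n =>
    ¬ GoodT (Pool.Agent.W245.PB.QbarP p) t L (fun i => Lg (n i : PadicAlgCl p))),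
    hc x hx (Pool.Agent.W245.PB.QbarP p) (PadicAlgCl p) (Pool.Agent.K7.H62.PA.infTrd_padic p)
      (fun n : ℕ => Lg (n : PadicAlgCl p)) hL'.logLike t _ (Finset.filter_subset _ _)
      (fun n hn => (Finset.mem_filter.1 hn).2), ?_⟩
  intro n hn hnE G hG j hj hG0 h0
  have hg : GoodT (Pool.Agent.W245.PB.QbarP p) t L (fun i => Lg (n i : PadicAlgCl p)) := by
    by_contra hcon
    apply hnE
    rw [Finset.mem_filter, Fintype.mem_piFinset]
    exact ⟨fun i => Finset.mem_Ioc.2 (hn i), hcon⟩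
  exact hG0 (hg G hG.cmp j hj h0)

end Pool.Agent.Results.MP_c50dba_nt.FewAdditions
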