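import Mathlib
import Pool.Agent.K7.H62.PA.RndSlp
import Pool.Agent.K7.H62.PA.DIns
import Pool.Agent.K7.H62.PA.Slp

/-!
# Products of algebraic numbers from many lists have no relations which can be computed with few additions

A polynomial is computed with `L` additions if it is one of `G 0, …, G (L - 1)`, where each `G l` is a
sum of two products of powers of the variables, of some given numbers `t_1, …, t_g`, of the earlier
polynomials `G 0, …, G (l - 1)` and of an algebraic number. There is no bound for the degrees.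

For `j ≤ n` and `s ≤ k` let `λ_{j,s,1}, …, λ_{j,s,N}` be a list of `N` arbitrary `p`-adic logarithms of
algebraic numbers.  The only assumption is that for every `j` the differences of different members of
different lists are linearly independent: if `f, g` are two choice functions, then the differences
`λ_{j,s,g(s)} - λ_{j,s,f(s)}` for all `s` with `g(s) ≠ f(s)` are linearly independent over `ℚ`.  For
instance the `λ_{j,s,i}` can be the logarithms of different primes, for fixed `j`, or
`λ_{j,s,i} = a_i λ_s` with different rational numbers `a_1, …, a_N` and with `ℚ`-linearly independent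
logarithms `λ_1, …, λ_k`.  Let `t_1, …, t_g` and `ζ_1, …, ζ_n` be ARBITRARY elements of the algebraic
closure of `ℚ_p`.

Then for all but `C N^(n k - δ k)` of the `N^(n k)` tuples `f` of choice functions no nonzero polynomial in
`n` variables which can be computed from the variables, `t_1, …, t_g` and algebraic numbers with at most
`L` additions and arbitrarily many multiplications vanishes at the point with the coordinates
`y_j = ζ_j + ∑_s λ_{j,s,f_j(s)}`.  Here `k ≥ k₀`, and `k₀`, `C` and `δ > 0` depend only on `n`, `g` and `L`.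

The proof: differential elimination for short computations with respect to a derivation whose
constants are the algebraic numbers (`Pool.Agent.R351.cube_good`), Brumer's theorem, and the fact that
sets of choice functions without nondegenerate boxes are exponentially small
(`Pool.Agent.K7.H62.PA.box_count`).
-/

set_option autoImplicit false

namespace Pool.Agent.Results.MP_c50dba_nt.ListsFewAdditions

open Pool.Agent.R351

/-- `Lg` is the Iwasawa `p`-adic logarithm on the algebraic closure of `ℚ_p`. -/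
def IsIwasawaLog (p : ℕ) [Fact p.Prime] (Lg : PadicAlgCl p → PadicAlgCl p) : Prop :=
  (∀ x y : PadicAlgCl p, x ≠ 0 → y ≠ 0 → Lg (x * y) = Lg x + Lg y) ∧
  Lg ((p : ℕ) : PadicAlgCl p) = 0 ∧
  ∀ z : PadicAlgCl p, ‖z‖ < 1 →
    HasSum (fun n : ℕ => (-1 : PadicAlgCl p) ^ n * z ^ (n + 1) / ((n : PadicAlgCl p) + 1))
      (Lg (1 + z))

/-- The polynomials `G 0, …, G (L - 1)` are computed with one addition each: `G l` is the sum of two
products of powers of the variables, of the numbers `t o`, of the earlier polynomials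
`G 0, …, G (l - 1)`, and of an algebraic number. -/
def Computed {p : ℕ} [Fact p.Prime] {g m : ℕ} (t : Fin g → PadicAlgCl p) (L : ℕ)
    (G : ℕ → MvPolynomial (Fin m) (PadicAlgCl p)) : Prop :=
  ∃ (c : ℕ → Bool → algebraicClosure ℚ (PadicAlgCl p)) (u : ℕ → Bool → Fin g → ℕ)
    (a : ℕ → Bool → Fin m → ℕ) (h : ℕ → Bool → ℕ → ℕ), ∀ l < L, G l = ∑ b : Bool,
      MvPolynomial.C ((c l b : PadicAlgCl p) * ∏ o, t o ^ u l b o) *
        (∏ i, MvPolynomial.X i ^ a l b i) * ∏ l' ∈ Finset.range l, G l' ^ h l b l'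

/-- No nonzero polynomial computed with at most `L` additions vanishes at `y`. -/
def NoShortRelation {p : ℕ} [Fact p.Prime] {g m : ℕ} (t : Fin g → PadicAlgCl p) (L : ℕ)
    (y : Fin m → PadicAlgCl p) : Prop :=
  ∀ G : ℕ → MvPolynomial (Fin m) (PadicAlgCl p), Computed t L G → ∀ j < L, G j ≠ 0 →
    MvPolynomial.eval y (G j) ≠ 0

theorem Computed.cmp {p : ℕ} [Fact p.Prime] {g m : ℕ} {t : Fin g → PadicAlgCl p} {L : ℕ}
    {G : ℕ → MvPolynomial (Fin m) (PadicAlgCl p)}
    (h : Computed t L G) : Cmp (algebraicClosure ℚ (PadicAlgCl p)) (btm m t) L G := by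
  obtain ⟨c, u, a, e, h⟩ := h
  refine ⟨c, fun l b j => Sum.elim (u l b) (a l b) j, e, fun l hl => ?_⟩
  rw [h l hl]
  refine Finset.sum_congr rfl fun b _ => ?_
  rw [Fintype.prod_sum_type, Algebra.smul_def, IsScalarTower.algebraMap_apply
    (algebraicClosure ℚ (PadicAlgCl p)) (PadicAlgCl p) (MvPolynomial (Fin m) (PadicAlgCl p))]
  unfold btm
  simp only [Sum.elim_inl, Sum.elim_inr, map_mul, map_prod, map_pow, MvPolynomial.algebraMap_eq]
  have h1 : algebraMap (algebraicClosure ℚ (PadicAlgCl p)) (PadicAlgCl p) (c l b) =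
      (c l b : PadicAlgCl p) := rfl
  rw [h1]
  ring

theorem of_goodT {p : ℕ} [Fact p.Prime] {g m L : ℕ} {t : Fin g → PadicAlgCl p}
    {y : Fin m → PadicAlgCl p} (h : GoodT (algebraicClosure ℚ (PadicAlgCl p)) t L y) :
    NoShortRelation t L y :=
  fun G hG j hj hG0 h0 => hG0 (h G hG.cmp j hj h0)

open Classical in
/-- **Main result.** -/
theorem result (n g L : ℕ) : ∃ (k₀ C : ℕ) (δ : ℝ), 0 < δ ∧ ∀ (p : ℕ) [Fact p.Prime]
    (Lg : PadicAlgCl p → PadicAlgCl p), IsIwasawaLog p Lg →
    ∀ k ≥ k₀, ∀ (N : ℕ) (lam : Fin n → Fin k → Fin N → PadicAlgCl p),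
      (∀ j s i, ∃ α : PadicAlgCl p, α ≠ 0 ∧ IsAlgebraic ℚ α ∧ lam j s i = Lg α) →
      (∀ (j : Fin n) (f h : Fin k → Fin N), LinearIndependent ℚ
        (fun s : {s // h s ≠ f s} => lam j s.1 (h s.1) - lam j s.1 (f s.1))) →
      ∀ (t : Fin g → PadicAlgCl p) (ζ : Fin n → PadicAlgCl p),
      ((Finset.univ.filter fun f : Fin n → Fin k → Fin N =>
        ¬ NoShortRelation t L (fun j => ζ j + ∑ s, lam j s (f j s))).card : ℝ) ≤
        C * (N : ℝ) ^ ((n * k : ℝ) - δ * k) := by
  obtain ⟨k₀, C, δ, hδ, -, h⟩ := Pool.Agent.K7.H62.PA.box_slp L n g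
  refine ⟨k₀, C, δ, hδ, fun p _ Lg hL0 k hk N lam hlam hli t ζ => ?_⟩
  have hL : Pool.Agent.W245.PB.IsIwasawaLog p Lg := ⟨hL0.1, hL0.2.1, hL0.2.2⟩
  refine h k hk (Pool.Agent.W245.PB.QbarP p) (PadicAlgCl p)
    (Pool.Agent.K7.H62.PA.infTrd_padic p) t ζ N lam
    (fun j => Pool.Agent.K7.H62.PA.DI_padic hL (lam j) (hlam j) (hli j)) _
    (fun a ha hg => (Finset.mem_filter.1 ha).2 (of_goodT hg))

end Pool.Agent.Results.MP_c50dba_nt.ListsFewAdditions
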