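import Mathlib
import Pool.Agent.K7.H62.PA.DIns

/-!
# Products of algebraic numbers from many lists: exponentially few exceptions

Let `ℚ̄` be the field of algebraic numbers in the algebraic closure of `ℚ_p`, let `G` be a `ℚ̄`-space of
dimension at most `g` of arbitrary elements of the algebraic closure of `ℚ_p`, and `LogForms` the space of
all linear combinations, with algebraic coefficients, of `1`, of elements of `G` and of all values of the
Iwasawa logarithm at algebraic numbers.  Let `W` be another `ℚ̄`-space of arbitrary elements, of dimension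
at most `m`.  For `j ≤ n` and `s ≤ k` let `λ_{j,s,1}, …, λ_{j,s,N}` be a list of `N` arbitrary `p`-adic
logarithms of algebraic numbers.  The only assumption is that for every `j` the differences of
different members of different lists are linearly independent: if `f, g` are two choice functions, then
the differences `λ_{j,s,g(s)} - λ_{j,s,f(s)}` for all `s` with `g(s) ≠ f(s)` are linearly independent over
`ℚ`.  For instance the `λ_{j,s,i}` can be the logarithms of different primes, for fixed `j`, or
`λ_{j,s,i} = a_i λ_s` with different rational numbers `a_1, …, a_N` and with `ℚ`-linearly independent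
logarithms `λ_1, …, λ_k`.  Let `ζ_j` be an arbitrary element of `LogForms`.  For `n` choice functions
`f_j` let

  `y_j = ζ_j + ∑_s λ_{j,s,f_j(s)}`.

There is a space `F ⊆ LogForms` of bounded dimension, which depends only on `W` and `G`, and `F = ℚ̄` for
`W ⊆ ℚ̄`, such that for all but `C N^(n k - δ k)` of the `N^(n k)` tuples of choice functions the tuple `y`
has the following property: the `y_j` are linearly independent over `ℚ̄` modulo `F`, and if `l_1, …, l_s`
are ARBITRARY elements of `LogForms` (any number of them, chosen after `y`), linearly independent over `ℚ̄`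
modulo `F` and the `y_j`, then no nonzero polynomial `P (X, Y)` with coefficients in `W`, of degree at most
`D` in every `X_j` and of total degree at most `1` in the `Y_i`, vanishes at `(y, l)`.  Here `k ≥ k₀`, and
`k₀`, `C` and `δ > 0` depend only on `n`, `D`, `m` and `g`, but not on `p`, `λ`, `ζ`, `G`, `W` and `N`.

The proof: cubes with sufficiently many linearly independent directions contain generic points
(`Pool.Agent.R350.PD_all`, from the `p`-adic strong six exponentials theorem); sets of choice functions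
without nondegenerate boxes are exponentially small (`Pool.Agent.K7.H62.PA.box_count`, from
`Pool.Agent.Y918.OL.cube_count`).
-/

set_option autoImplicit false

namespace Pool.Agent.Results.MP_c50dba_nt.ProductsFromLists

open Module MvPolynomial

/-- `L` is the Iwasawa `p`-adic logarithm on the algebraic closure of `ℚ_p`. -/
def IsIwasawaLog (p : ℕ) [Fact p.Prime] (L : PadicAlgCl p → PadicAlgCl p) : Prop :=
  (∀ x y : PadicAlgCl p, x ≠ 0 → y ≠ 0 → L (x * y) = L x + L y) ∧
  L ((p : ℕ) : PadicAlgCl p) = 0 ∧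
  ∀ z : PadicAlgCl p, ‖z‖ < 1 →
    HasSum (fun n : ℕ => (-1 : PadicAlgCl p) ^ n * z ^ (n + 1) / ((n : PadicAlgCl p) + 1))
      (L (1 + z))

/-- the linear combinations, with algebraic coefficients, of `1`, of the values of `L` at nonzero
algebraic numbers and of elements of `G` -/
noncomputable def LogForms (p : ℕ) [Fact p.Prime] (L : PadicAlgCl p → PadicAlgCl p)
    (G : Submodule (algebraicClosure ℚ (PadicAlgCl p)) (PadicAlgCl p)) :
    Submodule (algebraicClosure ℚ (PadicAlgCl p)) (PadicAlgCl p) :=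
  Submodule.span (algebraicClosure ℚ (PadicAlgCl p))
    ({1} ∪ {z | ∃ α : PadicAlgCl p, α ≠ 0 ∧ IsAlgebraic ℚ α ∧ z = L α}) ⊔ G

/-- `y` is independent modulo `F` and has no relation with coefficients in `W`, of degree at most `D`
in `y`, which is linear in elements of `V` independent modulo `F` and `y` -/
def NoRelation (p : ℕ) [Fact p.Prime]
    (V W F : Submodule (algebraicClosure ℚ (PadicAlgCl p)) (PadicAlgCl p)) (D : ℕ) {n : ℕ}
    (y : Fin n → PadicAlgCl p) : Prop :=
  (∀ c : Fin n → algebraicClosure ℚ (PadicAlgCl p), ∑ i, c i • y i ∈ F → ∀ i, c i = 0) ∧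
  ∀ (s : ℕ) (l : Fin s → PadicAlgCl p), (∀ j, l j ∈ V) →
    (∀ c : Fin s → algebraicClosure ℚ (PadicAlgCl p), ∑ j, c j • l j ∈
      F ⊔ Submodule.span (algebraicClosure ℚ (PadicAlgCl p)) (Set.range y) → ∀ j, c j = 0) →
    ∀ P : MvPolynomial (Fin n ⊕ Fin s) (PadicAlgCl p), (∀ β, P.coeff β ∈ W) →
      (∀ i, P.degreeOf (Sum.inl i) ≤ D) → (∀ β ∈ P.support, ∑ j, β (Sum.inr j) ≤ 1) →
      eval (Sum.elim y l) P = 0 → P = 0

open Classical in
/-- **Main result.** -/
theorem result (n D m g : ℕ) : ∃ (k₀ C : ℕ) (δ : ℝ), 0 < δ ∧ ∀ (p : ℕ) [Fact p.Prime]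
    (L : PadicAlgCl p → PadicAlgCl p), IsIwasawaLog p L →
    ∀ G W : Submodule (algebraicClosure ℚ (PadicAlgCl p)) (PadicAlgCl p),
    Module.Finite (algebraicClosure ℚ (PadicAlgCl p)) G →
    finrank (algebraicClosure ℚ (PadicAlgCl p)) G ≤ g →
    Module.Finite (algebraicClosure ℚ (PadicAlgCl p)) W →
    finrank (algebraicClosure ℚ (PadicAlgCl p)) W ≤ m →
    ∃ F : Submodule (algebraicClosure ℚ (PadicAlgCl p)) (PadicAlgCl p),
      Module.Finite (algebraicClosure ℚ (PadicAlgCl p)) F ∧
      finrank (algebraicClosure ℚ (PadicAlgCl p)) F ≤ C ∧ F ≤ LogForms p L G ∧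
      (W ≤ Submodule.span (algebraicClosure ℚ (PadicAlgCl p)) {(1 : PadicAlgCl p)} →
        F = Submodule.span (algebraicClosure ℚ (PadicAlgCl p)) {(1 : PadicAlgCl p)}) ∧
      ∀ k ≥ k₀, ∀ (N : ℕ) (lam : Fin n → Fin k → Fin N → PadicAlgCl p),
        (∀ j s i, ∃ α : PadicAlgCl p, α ≠ 0 ∧ IsAlgebraic ℚ α ∧ lam j s i = L α) →
        (∀ (j : Fin n) (f g : Fin k → Fin N), LinearIndependent ℚ
          (fun s : {s // g s ≠ f s} => lam j s.1 (g s.1) - lam j s.1 (f s.1))) →
        ∀ ζ : Fin n → PadicAlgCl p, (∀ j, ζ j ∈ LogForms p L G) →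
        ((Finset.univ.filter fun f : Fin n → Fin k → Fin N =>
          ¬ NoRelation p (LogForms p L G) W F D
            (fun j => ζ j + ∑ s, lam j s (f j s))).card : ℝ) ≤
          C * (N : ℝ) ^ ((n * k : ℝ) - δ * k) := by
  obtain ⟨k₀, C, δ, hδ, -, h⟩ := Pool.Agent.K7.H62.PA.box_lin D n m (0 + g)
  refine ⟨k₀, C + ((m + 1) * (m + 1 + (0 + g)) * (m + 1) + 1), δ, hδ,
    fun p _ L hL0 G W hGf hGg hWf hWm => ?_⟩
  have hL : Pool.Agent.W245.PB.IsIwasawaLog p L := ⟨hL0.1, hL0.2.1, hL0.2.2⟩
  have hS := Pool.Agent.R350.setup_padic hL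
  have hyp : Pool.Agent.R350.HypV (0 + g) (LogForms p L G) := hS.hyp.sup G hGg
  have hone : (1 : PadicAlgCl p) ∈ LogForms p L G := Submodule.mem_sup_left hS.one
  obtain ⟨h1, h2, h3, h4⟩ := Pool.Agent.R350.exSp_bound hyp hone W hWm
  refine ⟨Pool.Agent.R350.exSp (LogForms p L G) W, h1, h2.trans (by omega), h3, h4,
    fun k hk N lam hlam hli ζ hζ => ?_⟩
  refine (h k hk (algebraicClosure ℚ (PadicAlgCl p)) (PadicAlgCl p) (LogForms p L G) hyp hone W hWf
    hWm ζ hζ N lam (fun j s i => Submodule.mem_sup_left (Pool.Agent.Y787.log_mem (hlam j s i)))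
    (fun j => Pool.Agent.K7.H62.PA.DI_padic hL (lam j) (hlam j) (hli j)) _
    (fun a ha => (Finset.mem_filter.1 ha).2)).trans ?_
  refine mul_le_mul_of_nonneg_right ?_ (by positivity)
  push_cast
  have : (0 : ℝ) ≤ ((m : ℝ) + 1) * ((m : ℝ) + 1 + (0 + g)) * (m + 1) + 1 := by positivity
  linarith

end Pool.Agent.Results.MP_c50dba_nt.ProductsFromLists
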