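import Mathlib
import Pool.Agent.K7.H62.PA.QPg

/-!
# Among any five independent `p`-adic logarithms there are pairs without mixed quadratic relations

Let `𝓛(γ)` be the space of all linear combinations, with algebraic coefficients, of `1`, of `d` given
elements `γ_1, ..., γ_d` of the algebraic closure of `ℚ_p` and of arbitrary `p`-adic logarithms of
algebraic numbers.  Let `λ_0, ..., λ_(2d+4)` be `p`-adic logarithms of algebraic numbers which are
linearly independent over the rational numbers.  Then there are two distinct indices `i, j`, one of them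
less than `d + 3`, such that `a λ_i ^ 2 + b λ_i λ_j + c λ_j ^ 2 ∈ 𝓛(γ)` with algebraic `a, b, c` is
possible only for `b = 0`.

For `d = 0` (five logarithms) the only excluded pair is `{3, 4}`; as the numbering is arbitrary, at
least two of the ten pairs have the property.  In other words, no conic defined over the algebraic
numbers whose equation contains the product of the coordinates passes through the point
`(λ_i, λ_j)`, and this remains true if arbitrary linear forms in `p`-adic logarithms are added to the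
equation.

The complex analogue is the starting result `MP_60829e_nt.QuadricsThroughPairs`; the proof
(`Pool.Agent.K7.H62.PA.QP`) is a version of its proof for arbitrary spaces with the hyperplane property,
applied to the `p`-adic hyperplane theorem (`Pool.Agent.W254.PA`) and Brumer's theorem.
-/

set_option autoImplicit false

namespace Pool.Agent.Results.MP_c50dba_nt.QuadricsThroughPairs

/-- `L` is the Iwasawa `p`-adic logarithm on the algebraic closure of `ℚ_p`. -/
def IsIwasawaLog (p : ℕ) [Fact p.Prime] (L : PadicAlgCl p → PadicAlgCl p) : Prop :=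
  (∀ x y : PadicAlgCl p, x ≠ 0 → y ≠ 0 → L (x * y) = L x + L y) ∧
  L ((p : ℕ) : PadicAlgCl p) = 0 ∧
  ∀ z : PadicAlgCl p, ‖z‖ < 1 →
    HasSum (fun n : ℕ => (-1 : PadicAlgCl p) ^ n * z ^ (n + 1) / ((n : PadicAlgCl p) + 1))
      (L (1 + z))

/-- The space of all linear combinations with algebraic coefficients of `1`, of the values of `L` at
nonzero algebraic numbers and of the numbers `γ j`. -/
noncomputable def LinForms (p : ℕ) [Fact p.Prime] (L : PadicAlgCl p → PadicAlgCl p) {d : ℕ}
    (γ : Fin d → PadicAlgCl p) : Submodule (algebraicClosure ℚ (PadicAlgCl p)) (PadicAlgCl p) :=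
  Submodule.span (algebraicClosure ℚ (PadicAlgCl p))
    ({1} ∪ {z | ∃ α : PadicAlgCl p, α ≠ 0 ∧ IsAlgebraic ℚ α ∧ z = L α} ∪ Set.range γ)

/-- **Main result.** -/
theorem result (p : ℕ) [Fact p.Prime] (L : PadicAlgCl p → PadicAlgCl p) (hL : IsIwasawaLog p L)
    (d : ℕ) (l : Fin (2 * d + 5) → PadicAlgCl p)
    (hl : ∀ j, ∃ α : PadicAlgCl p, α ≠ 0 ∧ IsAlgebraic ℚ α ∧ l j = L α)
    (hli : LinearIndependent ℚ l) (γ : Fin d → PadicAlgCl p) :
    ∃ i j : Fin (2 * d + 5), i ≠ j ∧ i.val < d + 3 ∧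
      ∀ a b c : PadicAlgCl p, IsAlgebraic ℚ a → IsAlgebraic ℚ b → IsAlgebraic ℚ c →
        a * l i ^ 2 + b * (l i * l j) + c * l j ^ 2 ∈ LinForms p L γ → b = 0 := by
  have hL' : Pool.Agent.W245.PB.IsIwasawaLog p L := ⟨hL.1, hL.2.1, hL.2.2⟩
  obtain ⟨i, j, hij, hi, h⟩ := Pool.Agent.K7.H62.PA.QP.pairs
    (Pool.Agent.W254.PA.hyp_padic hL') (Pool.Agent.Y787.hypC_padic hL').one d l
    (fun j => Pool.Agent.Y787.log_mem (hl j)) (Pool.Agent.Y787.li_consP hL' l hl hli) γ
  refine ⟨i, j, hij, hi, fun a b c ha hb hc hmem => ?_⟩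
  by_contra hb0
  have ha' : IsAlgebraic ℚ (-(a * b⁻¹)) := (ha.mul hb.inv).neg
  have hc' : IsAlgebraic ℚ (-(c * b⁻¹)) := (hc.mul hb.inv).neg
  apply h ⟨-(a * b⁻¹), mem_algebraicClosure_iff.2 ha'⟩ ⟨-(c * b⁻¹), mem_algebraicClosure_iff.2 hc'⟩
  have hE : LinForms p L γ = Pool.Agent.W254.PA.LtE (Pool.Agent.W254.PA.logs L) ⊔
      Submodule.span (algebraicClosure ℚ (PadicAlgCl p)) (Set.range γ) := by
    rw [LinForms, Pool.Agent.W254.PA.LtE, Submodule.span_union]
    rfl
  rw [← hE]
  have h1 := (LinForms p L γ).smul_mem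
    (⟨b⁻¹, mem_algebraicClosure_iff.2 hb.inv⟩ : algebraicClosure ℚ (PadicAlgCl p)) hmem
  rw [Algebra.smul_def] at h1
  have h2 : (algebraMap (algebraicClosure ℚ (PadicAlgCl p)) (PadicAlgCl p))
      (⟨b⁻¹, mem_algebraicClosure_iff.2 hb.inv⟩ : algebraicClosure ℚ (PadicAlgCl p)) = b⁻¹ := rfl
  rw [h2] at h1
  have h3 : l i * l j - (-(a * b⁻¹) * l i ^ 2 + -(c * b⁻¹) * l j ^ 2) =
      b⁻¹ * (a * l i ^ 2 + b * (l i * l j) + c * l j ^ 2) := by
    field_simp
    ring
  show l i * l j - (-(a * b⁻¹) * l i ^ 2 + -(c * b⁻¹) * l j ^ 2) ∈ LinForms p L γ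
  rw [h3]
  exact h1

end Pool.Agent.Results.MP_c50dba_nt.QuadricsThroughPairs
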